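import Pool.Agent.N685.FT.Gen2
import Pool.Agent.N685.FT.Main3

/-!
The large deviation law of the total stopping time of the `3x+1` function on the whole side of the
numbers which are faster than the average, for all trajectories: counts of integers up to `x`, counts
on the levels, and the moment generating function of the levels.
-/

set_option autoImplicit false

namespace Pool.Agent.Results.MP_f7abf1_nt.FastNumbers

/-- The `3x+1` function. -/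
def T (n : ℕ) : ℕ := if n % 2 = 0 then n / 2 else (3 * n + 1) / 2

/-- `k` is the total stopping time of `n`: the least `k ≥ 0` with `T^(k)(n) = 1` (so it is finite). -/
def IsStoppingTime (n k : ℕ) : Prop := IsLeast {j : ℕ | T^[j] n = 1} k

/-- `M(θ) = ½ (2^θ + (2/3)^θ)`. -/
noncomputable def M (θ : ℝ) : ℝ := (1 / 2) * ((2 : ℝ) ^ θ + (2 / 3 : ℝ) ^ θ)

/-- `g(a) = sup_θ (θ a - log M(θ))`. -/
noncomputable def g (a : ℝ) : ℝ := ⨆ θ : ℝ, (θ * a - Real.log (M θ))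

/-- (1) For every `α` with `1 / log 2 < α ≤ 2 / log (4/3)` (`2 / log (4/3)` is the mean value
`6.952...` of the model) and every `ε > 0`, for all large `x` the number of the `2 ≤ n ≤ x` with
`σ_∞(n) ≤ α log n` is between `x^(1 - α g(1/α) - ε)` and `x^(1 - α g(1/α) + ε)`.

(2) On the single levels: for `½ log (4/3) ≤ t ≤ ¼ log (16/3)` and every `ε > 0`, for all large `k`
the number of `n` with `σ_∞(n) = k` and `log n ≤ t k` is between `exp ((t - g(t) - ε) k)` and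
`exp ((t - g(t) + ε) k)`; and for `¼ log (16/3) ≤ t < log 2` the same for the number of `n` with
`σ_∞(n) = k` and `log n ≥ t k`.

(3) For every `θ ≥ 0` and `ε > 0`, for all large `k` the level `{n : σ_∞(n) = k}` is finite and the sum
of `n^(θ - 1)` over it is between `exp ((log M(θ) - ε) k)` and `exp ((log M(θ) + ε) k)`. -/
theorem result :
    (∀ α : ℝ, 1 / Real.log 2 < α → α ≤ 2 / Real.log (4 / 3) → ∀ ε : ℝ, 0 < ε →
      ∃ X₀ : ℝ, ∀ x : ℝ, X₀ ≤ x →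
        x ^ (1 - α * g (1 / α) - ε) ≤
          (Set.ncard {n : ℕ | 2 ≤ n ∧ (n : ℝ) ≤ x ∧
            ∃ k : ℕ, IsStoppingTime n k ∧ (k : ℝ) ≤ α * Real.log n} : ℝ) ∧
        (Set.ncard {n : ℕ | 2 ≤ n ∧ (n : ℝ) ≤ x ∧
            ∃ k : ℕ, IsStoppingTime n k ∧ (k : ℝ) ≤ α * Real.log n} : ℝ) ≤
          x ^ (1 - α * g (1 / α) + ε)) ∧
    (∀ t : ℝ, Real.log (4 / 3) / 2 ≤ t → t ≤ Real.log (16 / 3) / 4 → ∀ ε : ℝ, 0 < ε →
      ∃ k₀ : ℕ, ∀ k : ℕ, k₀ ≤ k →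
        Real.exp ((t - g t - ε) * k) ≤
          (Set.ncard {n : ℕ | IsStoppingTime n k ∧ Real.log n ≤ t * k} : ℝ) ∧
        (Set.ncard {n : ℕ | IsStoppingTime n k ∧ Real.log n ≤ t * k} : ℝ) ≤
          Real.exp ((t - g t + ε) * k)) ∧
    (∀ t : ℝ, Real.log (16 / 3) / 4 ≤ t → t < Real.log 2 → ∀ ε : ℝ, 0 < ε →
      ∃ k₀ : ℕ, ∀ k : ℕ, k₀ ≤ k →
        Real.exp ((t - g t - ε) * k) ≤
          (Set.ncard {n : ℕ | IsStoppingTime n k ∧ t * k ≤ Real.log n} : ℝ) ∧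
        (Set.ncard {n : ℕ | IsStoppingTime n k ∧ t * k ≤ Real.log n} : ℝ) ≤
          Real.exp ((t - g t + ε) * k)) ∧
    (∀ θ : ℝ, 0 ≤ θ → ∀ ε : ℝ, 0 < ε → ∃ k₀ : ℕ, ∀ k : ℕ, k₀ ≤ k →
      {n : ℕ | IsStoppingTime n k}.Finite ∧
      Real.exp ((Real.log (M θ) - ε) * k) ≤
        ∑ᶠ n ∈ {n : ℕ | IsStoppingTime n k}, (n : ℝ) ^ (θ - 1) ∧
      ∑ᶠ n ∈ {n : ℕ | IsStoppingTime n k}, (n : ℝ) ^ (θ - 1) ≤
        Real.exp ((Real.log (M θ) + ε) * k)) := by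
  refine ⟨Pool.Agent.N685.FT.main_low Pool.Agent.N685.FT.gen_main,
    (Pool.Agent.N685.FT.main_levels Pool.Agent.N685.FT.gen_main).1,
    (Pool.Agent.N685.FT.main_levels Pool.Agent.N685.FT.gen_main).2, ?_⟩
  intro θ hθ ε hε
  obtain ⟨k₀, h⟩ := Pool.Agent.N685.FT.main_pressure Pool.Agent.N685.FT.gen_main θ hθ ε hε
  exact ⟨k₀, fun k hk => ⟨Pool.Agent.Y966.LD.Lev_finite k, (h k hk).1, (h k hk).2⟩⟩

end Pool.Agent.Results.MP_f7abf1_nt.FastNumbers
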