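import Pool.Agent.N60.MR.Grid

/-!
# The exact rates of the random walk model near the values of multiplicative functions

`T` is the `3x+1` function and `g` the rate function of the random walk model. For a trajectory whose first `j` steps have
the mean slope `a`, i.e. `T^j(n) = n e^(-aj)`, the cost `j g(a)` is, in the model, minus the logarithm of the probability. In
a set of about `n^κ` numbers of the size of `n` the model therefore predicts costs up to `κ log n` and no larger ones.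

We prove that this is so, for EVERY integer in the windows of length `f(u)^κ` around `G(f u)` for almost all `u`, for all times
`j ≤ (1 + τ) log_2 n` and all slopes at once. Here `f` is a positive multiplicative function of at most polynomial growth such
that `f p ≤ M p` for the large primes `p`, with different values at different large primes, for example Euler's function or
the sum of the divisors, and `G` has steps bounded below by a positive constant and growth at most `v^d`; for `G(v) = v` every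
cost `η > κ` is excluded. The values of `f` are in general taken with very large multiplicities.

Proof. The starting theorem `ModelRates` gives the bound of the model for the number of the `n` in a dyadic interval with a
slope of given cost, for times a little beyond `log_2 n`. The function `g` is Lipschitz in the interior, and so a finite grid
of slopes suffices. The number of all exceptions up to `X` is then at most `X^(1 - η + ε)`, and the tool of helper733
(N733/TG) shows that the windows around `G(f u)` contain none of them for almost all `u`.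
-/

set_option autoImplicit false

namespace Pool.Agent.Results.MP_f7abf1_nt.MultiplicativeValues

open Pool.Agent.N733.TG (LM Expanding lm_totient lm_sigma keep_good_nat expanding_pow)

/-- the `3x+1` function -/
def T (n : ℕ) : ℕ := if n % 2 = 0 then n / 2 else (3 * n + 1) / 2

/-- the Legendre transform of `log (½ (2^θ + (2/3)^θ))` -/
noncomputable def g (a : ℝ) : ℝ :=
  ⨆ θ : ℝ, (θ * a - Real.log ((1 / 2) * ((2 : ℝ) ^ θ + (2 / 3 : ℝ) ^ θ)))

/-- The trajectory of `n` has no slope of cost `≥ η log n` up to the time `(1 + τ) log_2 n`: for all times `j ≥ 1` up to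
`(1 + τ) log_2 n` and all slopes `a` with `j g(a) ≥ η log n` one has `T^j(n) < n e^(-aj)` if
`-log (3/2) + δ ≤ a ≤ ½ log (4/3)` (the trajectory is not that slow) and `T^j(n) > n e^(-aj)` if
`½ log (4/3) ≤ a ≤ log 2 - δ` (it is not that fast). -/
def Typical (δ η τ : ℝ) (n : ℕ) : Prop :=
  ∀ j : ℕ, 1 ≤ j → (j : ℝ) ≤ (1 + τ) * Real.logb 2 n → ∀ a : ℝ, η * Real.log n ≤ j * g a →
    (-Real.log (3 / 2) + δ ≤ a → a ≤ 1 / 2 * Real.log (4 / 3) → ((T^[j] n : ℕ) : ℝ) < n * Real.exp (-(a * j))) ∧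
    (1 / 2 * Real.log (4 / 3) ≤ a → a ≤ Real.log 2 - δ → n * Real.exp (-(a * j)) < ((T^[j] n : ℕ) : ℝ))

/-- **The exact rates of the model near the values of multiplicative functions.** Let `0 < δ ≤ 1/4`, `0 < η ≤ 1`, `d ≥ 1`,
`κ ≥ 0` and `d (1 - η) + κ < 1`. There is `τ > 0` such that for all `f`, `G` as above (`G` of order `d`), all `U` and all large
`N`: for all `u ≤ N` but at most `N / (log N)^U`, EVERY integer `n ≥ 1` with `|n - G (f u)| ≤ f(u)^κ` satisfies
`Typical δ η τ n`. Euler's function and the sum of the divisors are examples of such functions `f`, and `α v^d` with `α > 0`,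
`d ≥ 1` is an example of `G`. -/
theorem result :
    (∀ δ η d κ : ℝ, 0 < δ → δ ≤ 1 / 4 → 0 < η → η ≤ 1 → 1 ≤ d → 0 ≤ κ → d * (1 - η) + κ < 1 →
      ∃ τ : ℝ, 0 < τ ∧ ∀ f : ℕ → ℕ, LM f → ∀ G : ℕ → ℝ, Expanding G d →
        ∀ U : ℕ, ∃ N₀ : ℕ, ∀ N : ℕ, N₀ ≤ N →
          ({u : ℕ | 1 ≤ u ∧ u ≤ N ∧ ¬ ∀ n : ℕ, 1 ≤ n → |(n : ℝ) - G (f u)| ≤ (f u : ℝ) ^ κ →
            Typical δ η τ n}.ncard : ℝ) ≤ N / Real.log N ^ U) ∧
    (LM Nat.totient ∧ LM (fun m => ∑ d ∈ m.divisors, d)) ∧
    ∀ α d : ℝ, 0 < α → 1 ≤ d → Expanding (fun v => α * (v : ℝ) ^ d) d := by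
  classical
  refine ⟨fun δ η d κ hδ hδ1 hη hη1 hd hκ h1 => ?_, ⟨lm_totient, lm_sigma⟩, fun α d hα hd => expanding_pow hα hd⟩
  obtain ⟨e0, he0⟩ : ∃ e0 : ℝ, e0 = (1 - (d * (1 - η) + κ)) / (2 * d) := ⟨_, rfl⟩
  have hd0 : 0 < d := by linarith
  have he0a : 0 < e0 := by rw [he0]; exact div_pos (by linarith) (by linarith)
  have hs1 : d * (1 - η + e0) + κ < 1 := by
    have : d * e0 = (1 - (d * (1 - η) + κ)) / 2 := by
      rw [he0]; field_simp
    nlinarith
  obtain ⟨τ, hτ0, hτ1, C, hC, h⟩ := Pool.Agent.N60.MR.all_slopes hδ hδ1 hη he0a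
  refine ⟨τ / 2, by linarith, fun f hf G hG U => ?_⟩
  have hcount := Pool.Agent.N60.MR.dyadic_count (R := fun j n => Pool.Agent.N60.MR.Bad δ η j n) hτ0 hτ1
    (s := 1 - η + e0) (by linarith) hC h
  obtain ⟨N₀, hN₀⟩ := keep_good_nat (fun _ => True)
    (fun n => ∀ j : ℕ, (j : ℝ) ≤ (1 + τ / 2) * Real.logb 2 n → ¬ Pool.Agent.N60.MR.Bad δ η j n) hf hG
    (s := 1 - η + e0) (κ := κ) (by linarith) hκ hs1 hcount U
  refine ⟨N₀, fun N hN => le_trans ?_ (hN₀ N hN)⟩
  have hfin : {m : ℕ | 1 ≤ m ∧ m ≤ N ∧ ¬ ∀ n : ℕ, 1 ≤ n → True → |(n : ℝ) - G (f m)| ≤ (f m : ℝ) ^ κ →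
      ∀ j : ℕ, (j : ℝ) ≤ (1 + τ / 2) * Real.logb 2 n → ¬ Pool.Agent.N60.MR.Bad δ η j n}.Finite := by
    apply (Set.finite_Icc 1 N).subset
    intro m hm
    exact ⟨hm.1, hm.2.1⟩
  have hsub : {u : ℕ | 1 ≤ u ∧ u ≤ N ∧ ¬ ∀ n : ℕ, 1 ≤ n → |(n : ℝ) - G (f u)| ≤ (f u : ℝ) ^ κ → Typical δ η (τ / 2) n} ⊆
      {m : ℕ | 1 ≤ m ∧ m ≤ N ∧ ¬ ∀ n : ℕ, 1 ≤ n → True → |(n : ℝ) - G (f m)| ≤ (f m : ℝ) ^ κ →
      ∀ j : ℕ, (j : ℝ) ≤ (1 + τ / 2) * Real.logb 2 n → ¬ Pool.Agent.N60.MR.Bad δ η j n} := by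
    rintro u ⟨a1, a2, a3⟩
    refine ⟨a1, a2, fun hall => a3 fun n hn hw j hj1 hj a ha => ?_⟩
    have h5 := hall n hn trivial hw j hj
    constructor
    · intro b1 b2
      by_contra hcon
      push Not at hcon
      exact h5 ⟨a, ha, Or.inl ⟨b1, b2, hcon⟩⟩
    · intro b1 b2
      by_contra hcon
      push Not at hcon
      exact h5 ⟨a, ha, Or.inr ⟨b1, b2, hcon⟩⟩
  exact_mod_cast Set.ncard_le_ncard hsub hfin

end Pool.Agent.Results.MP_f7abf1_nt.MultiplicativeValues
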