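import Pool.Agent.N685.LC.Main

/-!
The scaled stopping time constant of the runs of consecutive integers in an arithmetic progression, and
the least integer with a given total stopping time: equivalent forms of the conjecture.
-/

set_option autoImplicit false

namespace Pool.Agent.Results.MP_f7abf1_nt.RunsInProgressions

open Filter Topology
open scoped ENNReal

/-- The `3x+1` function. -/
def T (n : ℕ) : ℕ := if n % 2 = 0 then n / 2 else (3 * n + 1) / 2

/-- `k` is the total stopping time of `n`: the least `k ≥ 0` with `T^(k)(n) = 1` (so it is finite). -/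
def IsStoppingTime (n k : ℕ) : Prop := IsLeast {j : ℕ | T^[j] n = 1} k

/-- The total stopping time `σ_∞(n)`: the least `k ≥ 0` with `T^(k)(n) = 1`, and `∞` if there is
none. -/
noncomputable def sigma (n : ℕ) : ℕ∞ := ⨅ (k : ℕ) (_ : T^[k] n = 1), (k : ℕ∞)

/-- The scaled total stopping time `γ_∞(n) = σ_∞(n) / log n` in `[0, ∞]`. -/
noncomputable def scaled (n : ℕ) : ℝ≥0∞ := (sigma n : ℝ≥0∞) / ENNReal.ofReal (Real.log n)

/-- The scaled stopping time constant `γ = limsup γ_∞(n)`, in `[0, ∞]`. -/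
noncomputable def gamma : ℝ≥0∞ := limsup scaled atTop

/-- The constant of the runs of length `H` in the progression `a + q m`: the limsup, as `m → ∞`, of the
minimum of `γ_∞(n), γ_∞(n + 1), ..., γ_∞(n + H - 1)`, where `n = a + q m`. -/
noncomputable def gammaRun (H q a : ℕ) : ℝ≥0∞ :=
  limsup (fun m : ℕ => ⨅ i : Fin H, scaled (a + q * m + i)) atTop

/-- `g(a) = sup_θ (θ a - log (½ (2^θ + (2/3)^θ)))`. -/
noncomputable def g (a : ℝ) : ℝ :=
  ⨆ θ : ℝ, (θ * a - Real.log ((1 / 2) * ((2 : ℝ) ^ θ + (2 / 3 : ℝ) ^ θ)))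

/-- The least integer with total stopping time `k`. -/
noncomputable def least (k : ℕ) : ℕ := sInf {n : ℕ | IsStoppingTime n k}

/-- There is exactly one real `γ₀ > (½ log (4/3))⁻¹` with `γ₀ g(1/γ₀) = 1` (the constant `γ_RRW`), it
lies between `41.6776` and `41.6777`. The constant of the runs of length `H` in the progression
`a + q m` is at least `γ₀`, for all `H`, `q ≥ 1` and `a`, and the following are equivalent:

(i) Q1: all `σ_∞(n)`, `n ≥ 1`, are finite and `γ = γ₀`;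

(ii) the constant of the runs of length `H` in the progression `a + q m` is `γ₀` for all `H ≥ 1`,
`q ≥ 1`, `a`;

(iii) it is `γ₀` for one choice of `H ≥ 1`, `q ≥ 1`, `a`;

(iv) all `σ_∞(n)`, `n ≥ 1`, are finite and `log (least k) / k` tends to `1 / γ₀`, where `least k` is
the least integer with total stopping time `k`. -/
theorem result : ∃ γ₀ : ℝ,
    (γ₀ > ((1 / 2) * Real.log (4 / 3))⁻¹ ∧ γ₀ * g (1 / γ₀) = 1) ∧
    (∀ γ : ℝ, γ > ((1 / 2) * Real.log (4 / 3))⁻¹ → γ * g (1 / γ) = 1 → γ = γ₀) ∧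
    (41.6776 < γ₀ ∧ γ₀ < 41.6777) ∧
    (∀ H q a : ℕ, 1 ≤ q → ENNReal.ofReal γ₀ ≤ gammaRun H q a) ∧
    [(∀ n : ℕ, 1 ≤ n → ∃ k : ℕ, T^[k] n = 1) ∧ gamma = ENNReal.ofReal γ₀,
      ∀ H q a : ℕ, 1 ≤ H → 1 ≤ q → gammaRun H q a = ENNReal.ofReal γ₀,
      ∃ H q a : ℕ, 1 ≤ H ∧ 1 ≤ q ∧ gammaRun H q a = ENNReal.ofReal γ₀,
      (∀ n : ℕ, 1 ≤ n → ∃ k : ℕ, T^[k] n = 1) ∧
        Tendsto (fun k : ℕ => Real.log (least k) / k) atTop (𝓝 (1 / γ₀))].TFAE :=
  Pool.Agent.N685.LC.Main.main_runs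

end Pool.Agent.Results.MP_f7abf1_nt.RunsInProgressions
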