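import Pool.Agent.N685.LC.Main

/-!
The lower half of the large deviation law of the total stopping time of the `3x+1` function on every
level, in all residue classes, and for runs of consecutive integers with the same total stopping time.
-/

set_option autoImplicit false

namespace Pool.Agent.Results.MP_f7abf1_nt.RunsOnEveryLevel

/-- The `3x+1` function. -/
def T (n : ℕ) : ℕ := if n % 2 = 0 then n / 2 else (3 * n + 1) / 2

/-- `k` is the total stopping time of `n`: the least `k ≥ 0` with `T^(k)(n) = 1` (so it is finite). -/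
def IsStoppingTime (n k : ℕ) : Prop := IsLeast {j : ℕ | T^[j] n = 1} k

/-- `g(a) = sup_θ (θ a - log (½ (2^θ + (2/3)^θ)))`. -/
noncomputable def g (a : ℝ) : ℝ :=
  ⨆ θ : ℝ, (θ * a - Real.log ((1 / 2) * ((2 : ℝ) ^ θ + (2 / 3 : ℝ) ^ θ)))

/-- All of `n, n + 1, ..., n + h` have total stopping time exactly `k`, and their trajectories are
straight lines on the logarithmic scale: `log T^(j)(n + i)` is within `ε k` of `(k - j) / α` for all
`j ≤ k` (for `j = 0`: `log (n + i)` is within `ε k` of `k / α`). -/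
def Run (h k : ℕ) (α ε : ℝ) : Set ℕ :=
  {n : ℕ | ∀ i ≤ h, IsStoppingTime (n + i) k ∧
    ∀ j ≤ k, |Real.log (T^[j] (n + i) : ℕ) - ((k : ℝ) - j) / α| ≤ ε * k}

/-- There is exactly one real `γ₀ > (½ log (4/3))⁻¹` with `γ₀ g(1/γ₀) = 1` (the constant `γ_RRW`), it
lies between `41.6776` and `41.6777`. For every `α` between `1 / log 2` and `γ₀`, every residue class
`a` modulo `q`, every `h` and `ε > 0`, for EVERY large `k` at least `exp ((1/α - g(1/α) - ε) k)`
integers `n ≡ a` modulo `q` are such that all of `n, ..., n + h` have total stopping time exactly `k`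
and straight trajectories of slope `-1/α` on the logarithmic scale (see `Run`), the exponent
`1/α - g(1/α)` being positive. At the end `α → γ₀` of the range: for every class `a` modulo `q`,
every `h` and `ε > 0`, every large `k` is the common total stopping time of `n, ..., n + h` for an
`n ≡ a` modulo `q` with `k ≥ (γ₀ - ε) log (n + h)`. -/
theorem result : ∃ γ₀ : ℝ,
    (γ₀ > ((1 / 2) * Real.log (4 / 3))⁻¹ ∧ γ₀ * g (1 / γ₀) = 1) ∧
    (∀ γ : ℝ, γ > ((1 / 2) * Real.log (4 / 3))⁻¹ → γ * g (1 / γ) = 1 → γ = γ₀) ∧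
    (41.6776 < γ₀ ∧ γ₀ < 41.6777) ∧
    (∀ α : ℝ, 1 / Real.log 2 < α → α < γ₀ → 0 < 1 / α - g (1 / α) ∧
      ∀ h q a : ℕ, 1 ≤ q → ∀ ε : ℝ, 0 < ε → ∃ k₀ : ℕ, ∀ k : ℕ, k₀ ≤ k →
        Real.exp ((1 / α - g (1 / α) - ε) * k) ≤
          (({n : ℕ | n ≡ a [MOD q] ∧ n ∈ Run h k α ε}).ncard : ℝ)) ∧
    (∀ h q a : ℕ, 1 ≤ q → ∀ ε : ℝ, 0 < ε → ∃ k₀ : ℕ, ∀ k : ℕ, k₀ ≤ k →
      ∃ n : ℕ, n ≡ a [MOD q] ∧ (∀ i ≤ h, IsStoppingTime (n + i) k) ∧
        (γ₀ - ε) * Real.log ((n + h : ℕ) : ℝ) ≤ k) :=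
  Pool.Agent.N685.LC.Main.main_levels

end Pool.Agent.Results.MP_f7abf1_nt.RunsOnEveryLevel
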